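import Pool.Agent.R460.GP.Conv
import Pool.Agent.R460.GS.Conv

/-!
# Equations `± p ± q + c r = d` in small primes

From the theorems on the Goldbach numbers and the differences of primes in the residue classes of every modulus
up to `x ^ (7/10 - ρ)`.
-/

set_option autoImplicit false

namespace Pool.Agent.R460.BK

open Finset
open Pool.Agent.R460.GS
open Pool.Agent.H560R3.GB (sing)
open Pool.Agent.Y614.GJ.Core (ev_log)
open Pool.Agent.W93.PG (cnt)

/-- Chebyshev lower bound -/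
lemma theta_lower : ∃ n0 : ℕ, ∀ n : ℕ, n0 ≤ n → (0.6 : ℝ) * n ≤ Chebyshev.theta (n : ℝ) := by
  obtain ⟨K1, h1⟩ := Filter.eventually_atTop.1 (ev_log 2 (s := 1 / 2) (by norm_num) 60)
  refine ⟨max 2 K1, fun n hn => ?_⟩
  have hn2 : 2 ≤ n := (le_max_left _ _).trans hn
  obtain ⟨e1, e2⟩ := h1 n ((le_max_right _ _).trans hn)
  rw [← Real.sqrt_eq_rpow] at e2
  have h2 : 60 * Real.log n ≤ √(n : ℝ) := by
    have : 60 * Real.log n ≤ Real.log n ^ 2 := by nlinarith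
    linarith
  have hn0 : (2 : ℝ) ≤ n := by exact_mod_cast hn2
  have h3 := Chebyshev.theta_ge n
  have hs : Real.sqrt n * Real.sqrt n = n := Real.mul_self_sqrt (by linarith)
  have hs1 : 1 ≤ Real.sqrt n := by
    rw [Real.one_le_sqrt]; linarith
  have hlog : 0 ≤ Real.log n := Real.log_nonneg (by linarith)
  have h4 : Real.log ((n : ℝ) + 1) ≤ 2 * Real.log n := by
    rw [← Real.log_rpow (by linarith)]
    apply Real.log_le_log (by linarith)
    rw [Real.rpow_two]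
    nlinarith
  have h5 : 0.69 < Real.log 2 := by linarith [Real.log_two_gt_d9]
  have h6 : 60 * Real.log n * Real.sqrt n ≤ n := by
    calc 60 * Real.log n * Real.sqrt n ≤ Real.sqrt n * Real.sqrt n := by
          apply mul_le_mul_of_nonneg_right h2 (Real.sqrt_nonneg _)
      _ = n := hs
  have h7 : Real.log n ≤ Real.log n * Real.sqrt n := by nlinarith
  nlinarith

/-- number of primes in `(y, 4y]` -/
lemma many_primes : ∃ n0 : ℕ, ∀ y : ℕ, n0 ≤ y →
    (y : ℝ) / 2 ≤ (((Ioc y (4 * y)).filter Nat.Prime).card : ℝ) * Real.log (4 * y) := by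
  obtain ⟨n0, h0⟩ := theta_lower
  refine ⟨max 2 n0, fun y hy => ?_⟩
  have hy2 : 2 ≤ y := (le_max_left _ _).trans hy
  have hy0 : n0 ≤ y := (le_max_right _ _).trans hy
  have h1 := h0 (4 * y) (by omega)
  have h2 : Chebyshev.theta (y : ℝ) ≤ Real.log 4 * y := Chebyshev.theta_le_log4_mul_x (by positivity)
  have h3 : Real.log 4 < 1.39 := by
    rw [show (4 : ℝ) = 2 ^ 2 by norm_num, Real.log_pow]
    have := Real.log_two_lt_d9
    push_cast
    linarith
  have h4 : Chebyshev.theta ((4 * y : ℕ) : ℝ) ≤ Chebyshev.theta (y : ℝ) +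
      (((Ioc y (4 * y)).filter Nat.Prime).card : ℝ) * Real.log (4 * y) := by
    have e1 : Chebyshev.theta ((4 * y : ℕ) : ℝ) =
        Chebyshev.theta (y : ℝ) + ∑ q ∈ (Ioc y (4 * y)).filter Nat.Prime, Real.log q := by
      rw [Chebyshev.theta, Chebyshev.theta, Nat.floor_natCast, Nat.floor_natCast, sum_filter,
        sum_filter, sum_filter, Finset.sum_Ioc_consecutive _ (by omega) (by omega)]
    rw [e1]
    gcongr
    rw [← nsmul_eq_mul]
    apply sum_le_card_nsmul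
    intro q hq
    simp only [mem_filter, mem_Ioc] at hq
    apply Real.log_le_log
    · exact_mod_cast hq.2.pos
    · exact_mod_cast hq.1.2
  push_cast at h1 h4
  have hy' : (2 : ℝ) ≤ y := by exact_mod_cast hy2
  nlinarith

/-- a prime `r` for which `f r` is not an exception -/
lemma pick {C : ℕ} (hC : 1 ≤ C) {x : ℝ} {y : ℕ} {Bad : Set ℕ} {f : ℕ → ℕ}
    (hf : ∀ r r' : ℕ, y < r → r ≤ 4 * y → y < r' → r' ≤ 4 * y → f r = f r' → r = r') (hfin : Bad.Finite)
    (hcard : (Bad.ncard : ℝ) ≤ x / (C * Real.log x ^ 3)) (hy1 : 1 ≤ y)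
    (hmp : (y : ℝ) / 2 ≤ (((Ioc y (4 * y)).filter Nat.Prime).card : ℝ) * Real.log (4 * y))
    (hy : x / (160 * C) ≤ y) (h4 : (4 : ℝ) * y ≤ x) (hx : 400 ≤ Real.log x) :
    ∃ r : ℕ, r.Prime ∧ y < r ∧ r ≤ 4 * y ∧ f r ∉ Bad := by
  classical
  by_contra hcon
  push Not at hcon
  have hC0 : (0 : ℝ) < C := by exact_mod_cast hC
  have hyr : (1 : ℝ) ≤ y := by exact_mod_cast hy1
  have hx0 : 0 < x := by linarith
  obtain ⟨l, hl⟩ : ∃ l, l = Real.log x := ⟨_, rfl⟩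
  rw [← hl] at hcard hx
  have hl0 : 0 < l := by linarith
  have h1 : (((Ioc y (4 * y)).filter Nat.Prime).card : ℝ) ≤ Bad.ncard := by
    have e1 : ((Ioc y (4 * y)).filter Nat.Prime).card ≤ hfin.toFinset.card := by
      refine card_le_card_of_injOn f ?_ ?_
      · intro r hr
        rw [mem_coe, mem_filter, mem_Ioc] at hr
        rw [mem_coe, Set.Finite.mem_toFinset]
        exact hcon r hr.2 hr.1.1 hr.1.2
      · intro r hr r' hr' h
        rw [mem_coe, mem_filter, mem_Ioc] at hr hr'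
        exact hf r r' hr.1.1 hr.1.2 hr'.1.1 hr'.1.2 h
    rw [← Set.ncard_eq_toFinset_card _ hfin] at e1
    exact_mod_cast e1
  have h2 : Real.log (4 * y) ≤ l := by
    rw [hl]
    exact Real.log_le_log (by linarith) h4
  have h3 : (y : ℝ) / 2 ≤ x / (C * l ^ 3) * l := by
    refine hmp.trans ?_
    have e0 : 0 ≤ x / (C * l ^ 3) := by positivity
    calc (((Ioc y (4 * y)).filter Nat.Prime).card : ℝ) * Real.log (4 * y)
        ≤ x / (C * l ^ 3) * Real.log (4 * y) := by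
          apply mul_le_mul_of_nonneg_right (h1.trans hcard)
          exact Real.log_nonneg (by linarith)
      _ ≤ x / (C * l ^ 3) * l := mul_le_mul_of_nonneg_left h2 e0
  have h5 : x / (C * l ^ 3) * l = x / C / l ^ 2 := by
    field_simp
  rw [h5] at h3
  have h6 : x / (160 * C) = x / C / 160 := by
    field_simp
  rw [h6] at hy
  have h7 : x / C / l ^ 2 ≤ x / C / 1600 := by
    apply div_le_div_of_nonneg_left (by positivity) (by norm_num)
    nlinarith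
  have h8 : 0 < x / C := by positivity
  linarith

/-- the size of the modulus -/
lemma size_q {ε : ℝ} (hε : 0 < ε) : ∃ ρ : ℝ, 0 < ρ ∧ ∃ C₀ : ℕ, ∀ C : ℕ, C₀ ≤ C → ∀ x : ℝ,
    (C : ℝ) ^ (10 / 7 + ε) / 4 ≤ x → (C : ℝ) ≤ x ^ (7 / 10 - ρ) := by
  obtain ⟨κ, hκ⟩ : ∃ κ, κ = 10 / 7 + ε / 2 := ⟨_, rfl⟩
  have hκ0 : 0 < κ := by rw [hκ]; positivity
  have hκ1 : 1 / κ < 7 / 10 := by
    rw [div_lt_div_iff₀ hκ0 (by norm_num), hκ]
    linarith
  refine ⟨7 / 10 - 1 / κ, by linarith, ?_⟩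
  obtain ⟨C₁, hC₁⟩ : ∃ C₁ : ℝ, ∀ x : ℝ, C₁ ≤ x → 4 ≤ x ^ (ε / 2) := by
    have h := (tendsto_rpow_atTop (show (0 : ℝ) < ε / 2 by positivity)).eventually_ge_atTop (4 : ℝ)
    exact Filter.eventually_atTop.1 h
  refine ⟨⌈C₁⌉₊ + 1, fun C hC x hx => ?_⟩
  have hC0 : (0 : ℝ) < C := by exact_mod_cast (show 0 < C by omega)
  have hCC : C₁ ≤ C := (Nat.le_ceil C₁).trans (by exact_mod_cast (show ⌈C₁⌉₊ ≤ C by omega))
  have h1 := hC₁ C hCC
  have h2 : (C : ℝ) ^ κ ≤ x := by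
    refine le_trans ?_ hx
    rw [show 10 / 7 + ε = κ + ε / 2 by rw [hκ]; ring, Real.rpow_add hC0, le_div_iff₀ (by norm_num)]
    exact mul_le_mul_of_nonneg_left h1 (by positivity)
  rw [show 7 / 10 - (7 / 10 - 1 / κ) = 1 / κ by ring]
  calc (C : ℝ) = ((C : ℝ) ^ κ) ^ (1 / κ) := by
        rw [← Real.rpow_mul hC0.le, mul_one_div_cancel hκ0.ne', Real.rpow_one]
    _ ≤ x ^ (1 / κ) := Real.rpow_le_rpow (by positivity) h2 (by positivity)

lemma thr {ε : ℝ} (hε : 0 < ε) (K : ℝ) (f : ℝ → ℝ) (hf : ∀ C : ℝ, 1 ≤ C → f C ≤ K * C) : ∃ C₂ : ℕ, ∀ C : ℕ,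
    C₂ ≤ C → f C ≤ (C : ℝ) ^ (10 / 7 + ε) := by
  obtain ⟨C₁, hC₁⟩ : ∃ C₁ : ℝ, ∀ x : ℝ, C₁ ≤ x → K ≤ x ^ (3 / 7 + ε) := by
    have h := (tendsto_rpow_atTop (show (0 : ℝ) < 3 / 7 + ε by positivity)).eventually_ge_atTop K
    exact Filter.eventually_atTop.1 h
  refine ⟨⌈C₁⌉₊ + 1, fun C hC => ?_⟩
  have hC0 : (1 : ℝ) ≤ C := by exact_mod_cast (show 1 ≤ C by omega)
  have hCC : C₁ ≤ C := (Nat.le_ceil C₁).trans (by exact_mod_cast (show ⌈C₁⌉₊ ≤ C by omega))
  refine (hf C hC0).trans ?_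
  have h1 := hC₁ C hCC
  rw [show 10 / 7 + ε = 1 + (3 / 7 + ε) by ring, Real.rpow_add (by linarith), Real.rpow_one, mul_comm K]
  exact mul_le_mul_of_nonneg_left h1 (by linarith)

/-- `p + q = C r + e` -/
theorem eq_add {ε : ℝ} (hε : 0 < ε) (T : ℕ) : ∃ C₀ : ℕ, ∀ C : ℕ, C₀ ≤ C → ∀ e : ℤ,
    (Int.gcd e C : ℝ) ≤ Real.log C ^ T → (2 : ℤ) ∣ C + e →
    ∃ p q r : ℕ, p.Prime ∧ q.Prime ∧ r.Prime ∧ (p : ℤ) + q = C * r + e ∧
      ((max p (max q r) : ℕ) : ℝ) ≤ 3 * |(e : ℝ)| + (C : ℝ) ^ (10 / 7 + ε) := by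
  obtain ⟨ρ, hρ, C₁, h1⟩ := size_q hε
  obtain ⟨x₁, h2⟩ := class_few (fun n => ∃ p q : ℕ, p.Prime ∧ q.Prime ∧ p + q = n) 0 ⟨3, fun n hn h2n hw => by
    have h3 := hw 0 n (by omega) le_rfl (by simp)
    have h4 := one_le_sing n
    have hlog : 0 < Real.log n := Real.log_pos (by exact_mod_cast (show 1 < n by omega))
    have hn0 : (0 : ℝ) < n := by exact_mod_cast (show 0 < n by omega)
    have h5 : 0 < 1 / 20 * (sing n * ((n : ℝ) - (0 : ℕ)) / Real.log n ^ 2) := by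
      rw [Nat.cast_zero, sub_zero]
      positivity
    have h6 : 0 < cnt n 0 n := by
      have : (0 : ℝ) < (cnt n 0 n : ℝ) := lt_of_lt_of_le h5 h3
      exact_mod_cast this
    unfold cnt at h6
    obtain ⟨p, hp⟩ := card_pos.1 h6
    rw [mem_filter, mem_Ioc] at hp
    exact ⟨p, n - p, hp.2.1, hp.2.2, by omega⟩⟩ ρ hρ 3 T
  obtain ⟨n₂, h3⟩ := many_primes
  obtain ⟨x₂, h4⟩ := Filter.eventually_atTop.1 (Real.tendsto_log_atTop.eventually_ge_atTop (400 : ℝ))
  -- thresholds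
  obtain ⟨C₂, hC₂⟩ : ∃ C₂ : ℕ, ∀ C : ℕ, C₂ ≤ C →
      64 * (C : ℝ) + 64 + 8 * |x₁| + 8 * |x₂| + 200 * C * (n₂ + 3) ≤ (C : ℝ) ^ (10 / 7 + ε) := by
    exact thr hε (64 + 64 + 8 * |x₁| + 8 * |x₂| + 200 * (n₂ + 3))
      (fun C => 64 * C + 64 + 8 * |x₁| + 8 * |x₂| + 200 * C * (n₂ + 3)) (by
      intro C hC
      have a1 := abs_nonneg x₁
      have a2 := abs_nonneg x₂
      nlinarith [mul_nonneg (sub_nonneg.2 hC) a1, mul_nonneg (sub_nonneg.2 hC) a2])
  refine ⟨max C₁ C₂ + 2, fun C hC e hg hpar => ?_⟩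
  have hCC1 : C₁ ≤ C := (le_max_left C₁ C₂).trans (by omega)
  have hX := hC₂ C ((le_max_right C₁ C₂).trans (by omega))
  obtain ⟨X, hXd⟩ : ∃ X, X = (C : ℝ) ^ (10 / 7 + ε) := ⟨_, rfl⟩
  rw [← hXd] at hX
  have hC0 : (2 : ℝ) ≤ C := by exact_mod_cast (show 2 ≤ C by omega)
  have hC0' : (0 : ℝ) < C := by linarith
  obtain ⟨E, hE⟩ : ∃ E : ℝ, E = |(e : ℝ)| := ⟨_, rfl⟩
  have hE0 : 0 ≤ E := by rw [hE]; exact abs_nonneg _
  obtain ⟨x, hx⟩ : ∃ x, x = 3 * E + X / 2 := ⟨_, rfl⟩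
  have a1 := abs_nonneg x₁
  have a2 := abs_nonneg x₂
  have a1' := le_abs_self x₁
  have a2' := le_abs_self x₂
  have hn2 : (0 : ℝ) ≤ n₂ := Nat.cast_nonneg _
  have hCn : 0 ≤ 200 * C * ((n₂ : ℝ) + 3) := by positivity
  have hxx1 : x₁ ≤ x := by linarith
  have hxx2 : x₂ ≤ x := by linarith
  have hx0 : 0 < x := by linarith
  have hlx := h4 x hxx2
  have hqx := h1 C hCC1 x (by rw [← hXd]; linarith)
  have hgx : (Int.gcd e C : ℝ) ≤ Real.log x ^ T := by
    refine hg.trans (pow_le_pow_left₀ (Real.log_nonneg (by linarith)) (Real.log_le_log hC0' ?_) _)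
    linarith
  obtain ⟨hfin, hcard⟩ := h2 x hxx1 C (by omega) hqx e hgx
  obtain ⟨Bad, hBad⟩ : ∃ Bad : Set ℕ, Bad = {n : ℕ | 0 < n ∧ (n : ℝ) ≤ x ∧ 2 ∣ n ∧ (n : ℤ) ≡ e [ZMOD C] ∧
    ¬ ∃ p q : ℕ, p.Prime ∧ q.Prime ∧ p + q = n} := ⟨_, rfl⟩
  rw [← hBad] at hfin hcard
  -- the range of `r`
  obtain ⟨y, hy1, hy2, hy3⟩ : ∃ y : ℕ, x / (160 * C) ≤ y ∧ n₂ + 2 ≤ y ∧
      ∀ r : ℕ, y < r → r ≤ 4 * y → 0 < (C : ℝ) * r + e ∧ (C : ℝ) * r + e ≤ x ∧ (r : ℝ) ≤ x := by
    rcases le_or_gt 0 e with he | he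
    · have he' : (e : ℝ) = E := by
        rw [hE, abs_of_nonneg (by exact_mod_cast he)]
      refine ⟨⌊x / (8 * C)⌋₊, ?_, ?_, ?_⟩
      · have e1 : x / (8 * C) < (⌊x / (8 * C)⌋₊ : ℝ) + 1 := Nat.lt_floor_add_one _
        have e2 : x / (8 * C) = 20 * (x / (160 * C)) := by field_simp; norm_num
        have e3 : 1 ≤ x / (160 * C) := by
          rw [le_div_iff₀ (by positivity)]
          nlinarith
        linarith
      · apply Nat.le_floor
        rw [le_div_iff₀ (by positivity)]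
        push_cast
        nlinarith
      · intro r hr1 hr2
        have e1 : (⌊x / (8 * C)⌋₊ : ℝ) ≤ x / (8 * C) := Nat.floor_le (by positivity)
        have e2 : (r : ℝ) ≤ 4 * (x / (8 * C)) := by
          have : (r : ℝ) ≤ 4 * (⌊x / (8 * C)⌋₊ : ℝ) := by exact_mod_cast hr2
          linarith
        have e3 : (C : ℝ) * r ≤ x / 2 := by
          calc (C : ℝ) * r ≤ C * (4 * (x / (8 * C))) := mul_le_mul_of_nonneg_left e2 hC0'.le
            _ = x / 2 := by field_simp; norm_num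
        have e4 : (0 : ℝ) < r := by exact_mod_cast (show 0 < r by omega)
        refine ⟨by rw [he']; positivity, ?_, ?_⟩
        · rw [he']
          linarith
        · have : (r : ℝ) ≤ C * r := by nlinarith
          linarith
    · have he' : (e : ℝ) = -E := by
        rw [hE, abs_of_neg (by exact_mod_cast he), neg_neg]
      refine ⟨⌈(E + X / 16) / C⌉₊, ?_, ?_, ?_⟩
      · refine le_trans ?_ (Nat.le_ceil _)
        rw [div_le_div_iff₀ (by positivity) hC0', hx]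
        nlinarith
      · have e1 : ((n₂ + 2 : ℕ) : ℝ) ≤ (⌈(E + X / 16) / C⌉₊ : ℝ) := by
          refine le_trans ?_ (Nat.le_ceil _)
          rw [le_div_iff₀ hC0']
          push_cast
          nlinarith
        exact_mod_cast e1
      · intro r hr1 hr2
        have e0 : 0 ≤ (E + X / 16) / C := div_nonneg (by linarith) hC0'.le
        have e1 : (⌈(E + X / 16) / C⌉₊ : ℝ) < (E + X / 16) / C + 1 := Nat.ceil_lt_add_one e0
        have e1' := Nat.le_ceil ((E + X / 16) / (C : ℝ))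
        have e2 : (r : ℝ) ≤ 4 * ((E + X / 16) / C + 1) := by
          have : (r : ℝ) ≤ 4 * (⌈(E + X / 16) / C⌉₊ : ℝ) := by exact_mod_cast hr2
          linarith
        have e3 : (E + X / 16) / C < r := by
          have : (⌈(E + X / 16) / C⌉₊ : ℝ) < r := by exact_mod_cast hr1
          linarith
        have e4 : E + X / 16 < r * C := (div_lt_iff₀ hC0').1 e3
        have e5 : (C : ℝ) * r ≤ 4 * E + X / 4 + 4 * C := by
          calc (C : ℝ) * r ≤ C * (4 * ((E + X / 16) / C + 1)) := mul_le_mul_of_nonneg_left e2 hC0'.le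
            _ = 4 * E + X / 4 + 4 * C := by field_simp; ring
        have e6 : (0 : ℝ) < r := by exact_mod_cast (show 0 < r by omega)
        refine ⟨by rw [he']; linarith, ?_, ?_⟩
        · rw [he']
          linarith
        · have : 2 * (r : ℝ) ≤ C * r := by nlinarith
          linarith
  have hy3' : (4 : ℝ) * y ≤ x := by
    have := (hy3 (4 * y) (by omega) le_rfl).2.2
    push_cast at this
    exact this
  obtain ⟨r, hr, hr1, hr2, hr3⟩ := pick (C := C) (x := x) (y := y) (Bad := Bad)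
    (f := fun r => ((C : ℤ) * r + e).toNat) (by omega) (by
      intro r r' k1 k2 k3 k4 h
      have l1 : (0 : ℤ) < C * r + e := by exact_mod_cast (hy3 r k1 k2).1
      have l2 : (0 : ℤ) < C * r' + e := by exact_mod_cast (hy3 r' k3 k4).1
      have l3 : (C : ℤ) * r + e = C * r' + e := by
        have l4 : (((C : ℤ) * r + e).toNat : ℤ) = (((C : ℤ) * r' + e).toNat : ℤ) := by exact_mod_cast h
        rwa [Int.toNat_of_nonneg l1.le, Int.toNat_of_nonneg l2.le] at l4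
      have l5 : (C : ℤ) * r = C * r' := by linarith
      have l6 := mul_left_cancel₀ (show (C : ℤ) ≠ 0 by exact_mod_cast (show C ≠ 0 by omega)) l5
      exact_mod_cast l6) hfin hcard (by omega) (h3 y (by omega)) hy1 hy3' hlx
  obtain ⟨l1, l2, l3⟩ := hy3 r hr1 hr2
  have l1' : (0 : ℤ) < C * r + e := by exact_mod_cast l1
  obtain ⟨n, hn⟩ : ∃ n : ℕ, n = ((C : ℤ) * r + e).toNat := ⟨_, rfl⟩
  have hnZ : (n : ℤ) = C * r + e := by rw [hn, Int.toNat_of_nonneg l1'.le]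
  have hnR : (n : ℝ) = C * r + e := by exact_mod_cast hnZ
  have hodd : r % 2 = 1 := (hr.eq_two_or_odd).resolve_left (by omega)
  have hmem : ∃ p q : ℕ, p.Prime ∧ q.Prime ∧ p + q = n := by
    by_contra hcon
    apply hr3
    rw [← hn, hBad]
    refine ⟨by omega, by rw [hnR]; exact l2, ?_, ?_, hcon⟩
    · have m1 : (2 : ℤ) ∣ (n : ℤ) := by
        rw [hnZ]
        obtain ⟨k, hk⟩ := hpar
        have m2 : (r : ℤ) = 2 * (r / 2 : ℕ) + 1 := by
          have := Nat.div_add_mod r 2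
          omega
        refine ⟨C * (r / 2 : ℕ) + k, ?_⟩
        rw [m2]
        linear_combination hk
      exact_mod_cast m1
    · rw [hnZ]
      exact (Int.modEq_iff_dvd.2 ⟨-r, by ring⟩)
  obtain ⟨p, q, hp, hq, hpq⟩ := hmem
  refine ⟨p, q, r, hp, hq, hr, ?_, ?_⟩
  · rw [← hnZ, ← hpq]
    push_cast
    ring
  · have hnx : (n : ℝ) ≤ x := by rw [hnR]; exact l2
    have hpx : (p : ℝ) ≤ x := by
      have : (p : ℝ) ≤ n := by exact_mod_cast (show p ≤ n by omega)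
      linarith
    have hqx : (q : ℝ) ≤ x := by
      have : (q : ℝ) ≤ n := by exact_mod_cast (show q ≤ n by omega)
      linarith
    have : ((max p (max q r) : ℕ) : ℝ) ≤ x := by
      push_cast
      exact max_le hpx (max_le hqx l3)
    rw [← hE, ← hXd]
    linarith

end Pool.Agent.R460.BK
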