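import Pool.Agent.R460.BK.One

/-!
# Equations `± p ± q + c r = d` in small primes: the case of a difference
-/

set_option autoImplicit false

namespace Pool.Agent.R460.BK

open Finset
open Pool.Agent.R460.GS
open Pool.Agent.H560R3.GB (sing)
open Pool.Agent.R460.GP (pairs_few AllWindows pairs exceptional)

/-- `p - q = C r + e` -/
theorem eq_sub {ε : ℝ} (hε : 0 < ε) (T : ℕ) : ∃ C₀ : ℕ, ∀ C : ℕ, C₀ ≤ C → ∀ e : ℤ,
    (Int.gcd e C : ℝ) ≤ Real.log C ^ T → (2 : ℤ) ∣ C + e →
    ∃ p q r : ℕ, p.Prime ∧ q.Prime ∧ r.Prime ∧ (p : ℤ) - q = C * r + e ∧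
      ((max p (max q r) : ℕ) : ℝ) ≤ 3 * |(e : ℝ)| + (C : ℝ) ^ (10 / 7 + ε) := by
  obtain ⟨ρ, hρ, C₁, h1⟩ := size_q hε
  obtain ⟨c, h2⟩ := pairs_few ρ hρ 3 T
  obtain ⟨x₁, h2⟩ := h2 0
  obtain ⟨n₂, h3⟩ := many_primes
  obtain ⟨x₂, h4⟩ := Filter.eventually_atTop.1 (Real.tendsto_log_atTop.eventually_ge_atTop (400 : ℝ))
  obtain ⟨C₂, hC₂⟩ : ∃ C₂ : ℕ, ∀ C : ℕ, C₂ ≤ C →
      64 * (C : ℝ) + 64 + 8 * |x₁| + 8 * |x₂| + 400 * C * (n₂ + 3) ≤ (C : ℝ) ^ (10 / 7 + ε) := by
    exact thr hε (64 + 64 + 8 * |x₁| + 8 * |x₂| + 400 * (n₂ + 3))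
      (fun C => 64 * C + 64 + 8 * |x₁| + 8 * |x₂| + 400 * C * (n₂ + 3)) (by
      intro C hC
      have a1 := abs_nonneg x₁
      have a2 := abs_nonneg x₂
      nlinarith [mul_nonneg (sub_nonneg.2 hC) a1, mul_nonneg (sub_nonneg.2 hC) a2])
  refine ⟨max C₁ C₂ + 2, fun C hC e hg hpar => ?_⟩
  have hCC1 : C₁ ≤ C := (le_max_left C₁ C₂).trans (by omega)
  have hX := hC₂ C ((le_max_right C₁ C₂).trans (by omega))
  obtain ⟨X, hXd⟩ : ∃ X, X = (C : ℝ) ^ (10 / 7 + ε) := ⟨_, rfl⟩
  rw [← hXd] at hX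
  have hC0 : (2 : ℝ) ≤ C := by exact_mod_cast (show 2 ≤ C by omega)
  have hC0' : (0 : ℝ) < C := by linarith
  obtain ⟨E, hE⟩ : ∃ E : ℝ, E = |(e : ℝ)| := ⟨_, rfl⟩
  have hE0 : 0 ≤ E := by rw [hE]; exact abs_nonneg _
  obtain ⟨x, hx⟩ : ∃ x, x = 2 * E + X / 4 := ⟨_, rfl⟩
  have a1 := abs_nonneg x₁
  have a2 := abs_nonneg x₂
  have a1' := le_abs_self x₁
  have a2' := le_abs_self x₂
  have hn2 : (0 : ℝ) ≤ n₂ := Nat.cast_nonneg _
  have hCn : 0 ≤ 400 * C * ((n₂ : ℝ) + 3) := by positivity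
  have hCn' : 1200 * (C : ℝ) ≤ 400 * C * ((n₂ : ℝ) + 3) := by nlinarith
  have hxx1 : x₁ ≤ x := by linarith
  have hxx2 : x₂ ≤ x := by linarith
  have hx0 : 0 < x := by linarith
  have hlx := h4 x hxx2
  have hqx := h1 C hCC1 x (by rw [← hXd]; linarith)
  have hgx : (Int.gcd e C : ℝ) ≤ Real.log x ^ T := by
    refine hg.trans (pow_le_pow_left₀ (Real.log_nonneg (by linarith)) (Real.log_le_log hC0' ?_) _)
    linarith
  obtain ⟨D, -, -, hD⟩ := h2 x hxx1
  -- the range of `r`
  obtain ⟨s, y, hs, hy1, hy2, hy3⟩ : ∃ (s : ℤ) (y : ℕ), (s = 1 ∨ s = -1) ∧ x / (160 * C) ≤ y ∧ n₂ + 2 ≤ y ∧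
      ∀ r : ℕ, y < r → r ≤ 4 * y → 0 < (s : ℝ) * ((C : ℝ) * r + e) ∧ (s : ℝ) * ((C : ℝ) * r + e) ≤ x ∧
        (r : ℝ) ≤ x := by
    rcases le_or_gt 0 e with he | he
    · have he' : (e : ℝ) = E := by
        rw [hE, abs_of_nonneg (by exact_mod_cast he)]
      refine ⟨1, ⌊x / (16 * C)⌋₊, Or.inl rfl, ?_, ?_, ?_⟩
      · have e1 : x / (16 * C) < (⌊x / (16 * C)⌋₊ : ℝ) + 1 := Nat.lt_floor_add_one _
        have e2 : x / (16 * C) = 10 * (x / (160 * C)) := by field_simp; norm_num
        have e3 : 1 ≤ 9 * (x / (160 * C)) := by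
          rw [← mul_div_assoc, le_div_iff₀ (by positivity)]
          linarith
        linarith
      · apply Nat.le_floor
        rw [le_div_iff₀ (by positivity)]
        push_cast
        nlinarith
      · intro r hr1 hr2
        have e1 : (⌊x / (16 * C)⌋₊ : ℝ) ≤ x / (16 * C) := Nat.floor_le (by positivity)
        have e2 : (r : ℝ) ≤ 4 * (x / (16 * C)) := by
          have : (r : ℝ) ≤ 4 * (⌊x / (16 * C)⌋₊ : ℝ) := by exact_mod_cast hr2
          linarith
        have e3 : (C : ℝ) * r ≤ x / 4 := by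
          calc (C : ℝ) * r ≤ C * (4 * (x / (16 * C))) := mul_le_mul_of_nonneg_left e2 hC0'.le
            _ = x / 4 := by field_simp; norm_num
        have e4 : (0 : ℝ) < r := by exact_mod_cast (show 0 < r by omega)
        rw [Int.cast_one, one_mul]
        refine ⟨by rw [he']; positivity, ?_, ?_⟩
        · rw [he']
          linarith
        · have : (r : ℝ) ≤ C * r := by nlinarith
          linarith
    · have he' : (e : ℝ) = -E := by
        rw [hE, abs_of_neg (by exact_mod_cast he), neg_neg]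
      rcases le_or_gt E (X / 32) with hEX | hEX
      · refine ⟨1, ⌈(E + X / 64) / C⌉₊, Or.inl rfl, ?_, ?_, ?_⟩
        · refine le_trans ?_ (Nat.le_ceil _)
          rw [div_le_div_iff₀ (by positivity) hC0', hx]
          nlinarith
        · have e1 : ((n₂ + 2 : ℕ) : ℝ) ≤ (⌈(E + X / 64) / C⌉₊ : ℝ) := by
            refine le_trans ?_ (Nat.le_ceil _)
            rw [le_div_iff₀ hC0']
            push_cast
            nlinarith
          exact_mod_cast e1
        · intro r hr1 hr2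
          have e0 : 0 ≤ (E + X / 64) / C := div_nonneg (by linarith) hC0'.le
          have e1 : (⌈(E + X / 64) / C⌉₊ : ℝ) < (E + X / 64) / C + 1 := Nat.ceil_lt_add_one e0
          have e1' := Nat.le_ceil ((E + X / 64) / (C : ℝ))
          have e2 : (r : ℝ) ≤ 4 * ((E + X / 64) / C + 1) := by
            have : (r : ℝ) ≤ 4 * (⌈(E + X / 64) / C⌉₊ : ℝ) := by exact_mod_cast hr2
            linarith
          have e3 : (E + X / 64) / C < r := by
            have : (⌈(E + X / 64) / C⌉₊ : ℝ) < r := by exact_mod_cast hr1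
            linarith
          have e4 : E + X / 64 < r * C := (div_lt_iff₀ hC0').1 e3
          have e5 : (C : ℝ) * r ≤ 4 * E + X / 16 + 4 * C := by
            calc (C : ℝ) * r ≤ C * (4 * ((E + X / 64) / C + 1)) := mul_le_mul_of_nonneg_left e2 hC0'.le
              _ = 4 * E + X / 16 + 4 * C := by field_simp; ring
          have e6 : (0 : ℝ) < r := by exact_mod_cast (show 0 < r by omega)
          rw [Int.cast_one, one_mul]
          refine ⟨by rw [he']; linarith, ?_, ?_⟩
          · rw [he']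
            linarith
          · have : 2 * (r : ℝ) ≤ C * r := by nlinarith
            linarith
      · refine ⟨-1, ⌊E / (8 * C)⌋₊, Or.inr rfl, ?_, ?_, ?_⟩
        · have e1 : E / (8 * C) < (⌊E / (8 * C)⌋₊ : ℝ) + 1 := Nat.lt_floor_add_one _
          have e2 : x / (160 * C) ≤ E / (16 * C) := by
            rw [div_le_div_iff₀ (by positivity) (by positivity), hx]
            have : 2 * E + X / 4 ≤ 10 * E := by linarith
            nlinarith
          have e3 : E / (8 * C) = 2 * (E / (16 * C)) := by field_simp; ring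
          have e4 : 1 ≤ E / (16 * C) := by
            rw [le_div_iff₀ (by positivity)]
            linarith
          linarith
        · apply Nat.le_floor
          rw [le_div_iff₀ (by positivity)]
          push_cast
          nlinarith
        · intro r hr1 hr2
          have e1 : (⌊E / (8 * C)⌋₊ : ℝ) ≤ E / (8 * C) := Nat.floor_le (by positivity)
          have e2 : (r : ℝ) ≤ 4 * (E / (8 * C)) := by
            have : (r : ℝ) ≤ 4 * (⌊E / (8 * C)⌋₊ : ℝ) := by exact_mod_cast hr2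
            linarith
          have e3 : (C : ℝ) * r ≤ E / 2 := by
            calc (C : ℝ) * r ≤ C * (4 * (E / (8 * C))) := mul_le_mul_of_nonneg_left e2 hC0'.le
              _ = E / 2 := by field_simp; ring
          have e4 : (0 : ℝ) < r := by exact_mod_cast (show 0 < r by omega)
          have e5 : 0 < (C : ℝ) * r := by positivity
          rw [he']
          push_cast
          refine ⟨by linarith, by linarith, ?_⟩
          have : (r : ℝ) ≤ C * r := by nlinarith
          linarith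
  have hy3' : (4 : ℝ) * y ≤ x := by
    have := (hy3 (4 * y) (by omega) le_rfl).2.2
    push_cast at this
    exact this
  have hss : s * s = 1 := by rcases hs with h | h <;> rw [h] <;> norm_num
  have hgs : Int.gcd (s * e) C = Int.gcd e C := by
    rcases hs with h | h
    · rw [h, one_mul]
    · rw [h, neg_one_mul, Int.neg_gcd]
  obtain ⟨hfin, hcard⟩ := hD C (by omega) hqx (s * e) (Or.inl (by rw [hgs]; exact hgx))
  obtain ⟨r, hr, hr1, hr2, hr3⟩ := pick (C := C) (x := x) (y := y) (Bad := exceptional 3 x C (s * e))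
    (f := fun r => (s * ((C : ℤ) * r + e)).toNat) (by omega) (by
      intro r r' k1 k2 k3 k4 h
      have l1 : (0 : ℤ) < s * (C * r + e) := by exact_mod_cast (hy3 r k1 k2).1
      have l2 : (0 : ℤ) < s * (C * r' + e) := by exact_mod_cast (hy3 r' k3 k4).1
      have l3 : s * ((C : ℤ) * r + e) = s * (C * r' + e) := by
        have l4 : ((s * ((C : ℤ) * r + e)).toNat : ℤ) = ((s * ((C : ℤ) * r' + e)).toNat : ℤ) := by
          exact_mod_cast h
        rwa [Int.toNat_of_nonneg l1.le, Int.toNat_of_nonneg l2.le] at l4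
      have l5 : (C : ℤ) * r = C * r' := by
        have l7 : s * (s * ((C : ℤ) * r + e)) = s * (s * (C * r' + e)) := by rw [l3]
        rw [← mul_assoc, ← mul_assoc, hss, one_mul, one_mul] at l7
        linarith
      have l6 := mul_left_cancel₀ (show (C : ℤ) ≠ 0 by exact_mod_cast (show C ≠ 0 by omega)) l5
      exact_mod_cast l6) hfin hcard (by omega) (h3 y (by omega)) hy1 hy3' hlx
  obtain ⟨l1, l2, l3⟩ := hy3 r hr1 hr2
  have l1' : (0 : ℤ) < s * (C * r + e) := by exact_mod_cast l1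
  obtain ⟨n, hn⟩ : ∃ n : ℕ, n = (s * ((C : ℤ) * r + e)).toNat := ⟨_, rfl⟩
  have hnZ : (n : ℤ) = s * (C * r + e) := by rw [hn, Int.toNat_of_nonneg l1'.le]
  have hnR : (n : ℝ) = s * (C * r + e) := by exact_mod_cast hnZ
  have hodd : r % 2 = 1 := (hr.eq_two_or_odd).resolve_left (by omega)
  have hwin : AllWindows 3 x n := by
    by_contra hcon
    apply hr3
    rw [← hn]
    refine ⟨by omega, by rw [hnR]; exact l2, ?_, ?_, hcon⟩
    · have m1 : (2 : ℤ) ∣ (n : ℤ) := by
        rw [hnZ]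
        apply Dvd.dvd.mul_left
        obtain ⟨k, hk⟩ := hpar
        have m2 : (r : ℤ) = 2 * (r / 2 : ℕ) + 1 := by
          have := Nat.div_add_mod r 2
          omega
        refine ⟨C * (r / 2 : ℕ) + k, ?_⟩
        rw [m2]
        linear_combination hk
      exact_mod_cast m1
    · rw [hnZ]
      exact (Int.modEq_iff_dvd.2 ⟨-(s * r), by ring⟩)
  have hl3 : 8 ≤ Real.log x ^ 3 := by
    calc (8 : ℝ) = 2 ^ 3 := by norm_num
      _ ≤ Real.log x ^ 3 := pow_le_pow_left₀ (by norm_num) (by linarith) 3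
  obtain ⟨v, hv⟩ : ∃ v, v = x / Real.log x ^ 3 := ⟨_, rfl⟩
  have hv8 : v ≤ x / 8 := by
    rw [hv]
    exact div_le_div_of_nonneg_left hx0.le (by norm_num) hl3
  have hv0 : 0 < v := by rw [hv]; positivity
  have h5 := hwin 0 v le_rfl (by linarith) (by rw [sub_zero, hv])
  have h6 : 1 ≤ sing n := one_le_sing n
  have h7 : 0 < pairs n 0 v := by
    have : (0 : ℝ) < (pairs n 0 v : ℝ) := by
      refine lt_of_lt_of_le ?_ h5
      rw [sub_zero]
      positivity
    exact_mod_cast this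
  obtain ⟨q, hq1, hq2, -, hq4⟩ := Set.nonempty_of_ncard_ne_zero h7.ne'
  have hnx : (n : ℝ) ≤ x := by rw [hnR]; exact l2
  have hqn : ((q + n : ℕ) : ℝ) ≤ 9 / 8 * x := by
    push_cast
    linarith
  have hqx' : (q : ℝ) ≤ 9 / 8 * x := by linarith
  have hfinal : 9 / 8 * x ≤ 3 * E + X := by rw [hx]; linarith
  have hrx : (r : ℝ) ≤ 9 / 8 * x := by linarith
  rcases hs with h | h
  · refine ⟨q + n, q, r, hq2, hq1, hr, ?_, ?_⟩
    · rw [h, one_mul] at hnZ
      rw [← hnZ]
      push_cast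
      ring
    · rw [← hE, ← hXd]
      refine le_trans ?_ hfinal
      have : ((max (q + n) (max q r) : ℕ) : ℝ) = max ((q + n : ℕ) : ℝ) (max (q : ℝ) (r : ℝ)) := by
        push_cast
        rfl
      rw [this]
      exact max_le hqn (max_le hqx' hrx)
  · refine ⟨q, q + n, r, hq1, hq2, hr, ?_, ?_⟩
    · rw [h, neg_one_mul] at hnZ
      push_cast
      rw [hnZ]
      ring
    · rw [← hE, ← hXd]
      refine le_trans ?_ hfinal
      have : ((max q (max (q + n) r) : ℕ) : ℝ) = max (q : ℝ) (max ((q + n : ℕ) : ℝ) (r : ℝ)) := by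
        push_cast
        rfl
      rw [this]
      exact max_le hqx' (max_le hqn hrx)

end Pool.Agent.R460.BK
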